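import Mathlib
import Pool.Agent.H637R2.Gott.SmallMain

set_option autoImplicit false

namespace Pool.Agent.H637R2.Gott.Lib.MemoryThree

/-- Binary cellular automata with a memory of at most three elements over an arbitrary group:
every injective one whose rule is not `e + x + y + z` is surjective; if the memory does not lie in
a coset of a cyclic subgroup, an injective one has an affine rule depending on exactly one or all
three coordinates. -/
theorem main_result.{u} : ∀ (G : Type u) [Group G] (a b c : G) (f : Bool → Bool → Bool → Bool),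
    Function.Injective (fun (x : G → Bool) (g : G) => f (x (g * a)) (x (g * b)) (x (g * c))) →
    ((∀ e : Bool, f ≠ fun x y z => (e ^^ (x ^^ (y ^^ z)))) →
      Function.Surjective
        (fun (x : G → Bool) (g : G) => f (x (g * a)) (x (g * b)) (x (g * c)))) ∧
    ((¬ ∃ z : G, a⁻¹ * b ∈ Subgroup.zpowers z ∧ a⁻¹ * c ∈ Subgroup.zpowers z) →
      ∃ e : Bool, (∀ x y z, f x y z = (e ^^ x)) ∨ (∀ x y z, f x y z = (e ^^ y)) ∨
        (∀ x y z, f x y z = (e ^^ z)) ∨ (∀ x y z, f x y z = (e ^^ (x ^^ (y ^^ z))))) := by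
  intro G _ a b c f hinj
  refine ⟨fun hf => Pool.Agent.H637R2.Gott.small_main a b c f hf hinj, fun hNC => ?_⟩
  have hNC' : Pool.Agent.H637R2.Gott.NC a b c := fun z hz => hNC ⟨z, hz⟩
  rcases Pool.Agent.H637R2.Gott.noncyc hNC' hinj with ⟨e, he⟩ | ⟨e, he⟩ | ⟨e, he⟩ | ⟨e, he⟩
  · exact ⟨e, Or.inl he⟩
  · exact ⟨e, Or.inr (Or.inl he)⟩
  · exact ⟨e, Or.inr (Or.inr (Or.inl he))⟩
  · exact ⟨e, Or.inr (Or.inr (Or.inr he))⟩

end Pool.Agent.H637R2.Gott.Lib.MemoryThree
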