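import Mathlib
import Pool.Agent.H637R2.Gott.Pers

set_option autoImplicit false

namespace Pool.Agent.H637R2.Gott.Lib.PersistentSets

/-- Injective continuous self-maps of `A^G` (in particular cellular automata) with a separating
finite family of persistent sets are surjective, for every group `G`. -/
theorem main_result.{u, v, w} : ∀ (G : Type u) [Group G] (A : Type v) [Finite A] [TopologicalSpace A]
    [DiscreteTopology A] (ι : Type w) [Finite ι] (U : ι → Set A) (s : ι → G) (q : A),
    (∀ c : A, (∀ i, c ∈ U i) ↔ c = q) →
    ∀ τ : (G → A) → (G → A), Continuous τ → Function.Injective τ →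
    (∀ (i : ι) (x : G → A) (g : G), x (g * s i) ∈ U i → τ x g ∈ U i) →
    Function.Surjective τ := by
  intro G _ A _ _ _ ι _ U s q hq τ hcont hi H
  exact Pool.Agent.H637R2.Gott.Pers.main U s q hq τ hcont hi H

end Pool.Agent.H637R2.Gott.Lib.PersistentSets
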